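import Mathlib
import Pool.Agent.H342R3.CellDefs
import Pool.Agent.H342R3.Visc6

/-!
The vanishing viscosity limit of the cell problem need not exist: for every `n ≥ 1` there is a
Hamiltonian `H ∈ C²(𝕋ⁿ × ℝⁿ)` with (A1), even convex in `p`, for which the normalised solutions
`v^ε` of the viscous cell problem do not converge as `ε → 0`, not even pointwise.
-/

set_option autoImplicit false

open Set Filter Topology

namespace Pool.Agent.Results.MP_5fee02_an.NoSelection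

open Pool.Agent.H342R3.CellDefs Pool.Agent.H342R3

theorem result (n : ℕ) (hn : 1 ≤ n) :
    ∃ H : E n → E n → ℝ, IsHamiltonian H ∧ A1 H ∧ (∀ x, ConvexOn ℝ univ (H x)) ∧
      (∀ ε ∈ Ioo (0:ℝ) 1, ∃ (c : ℝ) (v : E n → ℝ), IsViscousSolution H ε c v ∧ v 0 = 0 ∧
        ∀ (c' : ℝ) (v' : E n → ℝ), IsViscousSolution H ε c' v' → v' 0 = 0 → c' = c ∧ v' = v) ∧
      (∀ v : ℝ → E n → ℝ,
        (∀ ε ∈ Ioo (0:ℝ) 1, v ε 0 = 0 ∧ ∃ c : ℝ, IsViscousSolution H ε c (v ε)) →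
        (∃ x : E n, ¬ ∃ l : ℝ, Tendsto (fun ε => v ε x) (𝓝[>] 0) (𝓝 l)) ∧
          ¬ ∃ w : E n → ℝ, TendstoUniformly v w (𝓝[>] 0)) := by
  set j : Fin n := ⟨0, hn⟩ with hj
  have huniq : ∀ ε ∈ Ioo (0:ℝ) 1, ∀ (c' : ℝ) (v' : E n → ℝ),
      IsViscousSolution (Cell.HH j) ε c' v' → v' 0 = 0 →
      c' = Cell.cc ε ∧ v' = fun x => Cell.vv ε (x j) := by
    intro ε hε c' v' hv' h0
    obtain ⟨h1, h2⟩ := Cell.viscous_unique (Cell.HH_hamiltonian j) hε.1 hv'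
      (Cell.sol j hε.1)
    refine ⟨h1, ?_⟩
    funext x
    have h3 := h2 x
    simp only at h3
    rw [h0] at h3
    have h4 : (0 : E n) j = 0 := rfl
    rw [h4, Cell.vv_zero] at h3
    linarith
  have hpt : ∀ v : ℝ → E n → ℝ,
      (∀ ε ∈ Ioo (0:ℝ) 1, v ε 0 = 0 ∧ ∃ c : ℝ, IsViscousSolution (Cell.HH j) ε c (v ε)) →
      ¬ ∃ l : ℝ, Tendsto (fun ε => v ε (EuclideanSpace.single j (1/4:ℝ))) (𝓝[>] 0) (𝓝 l) := by
    rintro v hv ⟨l, hl⟩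
    apply Cell.no_limit
    refine ⟨l, hl.congr' ?_⟩
    have hmem : Ioo (0:ℝ) 1 ∈ 𝓝[>] (0:ℝ) := Ioo_mem_nhdsGT one_pos
    filter_upwards [hmem] with ε hε
    obtain ⟨h0, c, hc⟩ := hv ε hε
    rw [(huniq ε hε c (v ε) hc h0).2]
    simp
  refine ⟨Cell.HH j, Cell.HH_hamiltonian j, Cell.HH_A1 j, Cell.HH_convex j, ?_, ?_⟩
  · intro ε hε
    exact ⟨Cell.cc ε, fun x => Cell.vv ε (x j), Cell.sol j hε.1, Cell.vv_zero ε,
      fun c' v' h1 h2 => huniq ε hε c' v' h1 h2⟩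
  · intro v hv
    refine ⟨⟨_, hpt v hv⟩, ?_⟩
    rintro ⟨w, hw⟩
    exact hpt v hv ⟨_, hw.tendsto_at _⟩

end Pool.Agent.Results.MP_5fee02_an.NoSelection
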